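import Pool.Agent.Lib_helper79.EU.Orb

set_option autoImplicit false

universe u

namespace Pool.Agent.Lib_helper79.EU

open Cardinal Set

variable {V : Type u}

/-- `x` and `y` are not separated by at most `μ` other vertices. -/
def Lk (X : SimpleGraph V) (μ : Cardinal.{u}) (x y : V) : Prop :=
  ∀ S : Set V, #S ≤ μ → x ∉ S → y ∉ S → Rch X Sᶜ x y

/-- every pairwise linked set has size at most `μ`. -/
def NM (X : SimpleGraph V) (μ : Cardinal.{u}) : Prop :=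
  ∀ U : Set V, (∀ x ∈ U, ∀ y ∈ U, Lk X μ x y) → #U ≤ μ

/-- the cardinals used in the proof -/
structure Cards (μ ρ τ : Cardinal.{u}) : Prop where
  hμ : ℵ₀ ≤ μ
  hμρ : μ ≤ ρ
  hρτ : ρ < τ
  hρ : ρ ^ μ = ρ
  hτ : τ ^ ρ = τ

namespace Cards
variable {μ ρ τ : Cardinal.{u}} (h : Cards μ ρ τ)
include h
lemma aρ : ℵ₀ ≤ ρ := h.hμ.trans h.hμρ
lemma aτ : ℵ₀ ≤ τ := h.aρ.trans h.hρτ.le
lemma oneρ : 1 ≤ ρ := Cardinal.one_le_aleph0.trans h.aρ
lemma oneτ : 1 ≤ τ := Cardinal.one_le_aleph0.trans h.aτ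
lemma hτμ : τ ^ μ = τ := by
  apply le_antisymm
  · calc τ ^ μ ≤ τ ^ ρ := Cardinal.power_le_power_left (by
          intro h0; have := h.oneτ; rw [h0] at this; simp at this) h.hμρ
      _ = τ := h.hτ
  · calc τ = τ ^ (1 : Cardinal.{u}) := by simp
      _ ≤ τ ^ μ := Cardinal.power_le_power_left (by
          intro h0; have := h.oneτ; rw [h0] at this; simp at this)
          (Cardinal.one_le_aleph0.trans h.hμ)
lemma mρ : ρ * ρ = ρ := Cardinal.mul_eq_self h.aρ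
lemma mτ : τ * τ = τ := Cardinal.mul_eq_self h.aτ
end Cards

section

variable {X : SimpleGraph V} {G : Type u} [CommGroup G] [MulAction G V]

lemma Lk.symm {μ : Cardinal.{u}} {x y : V} (h : Lk X μ x y) : Lk X μ y x :=
  fun S hS hy hx => (h S hS hx hy).symm

lemma link (hE : Exact X G) {μ : Cardinal.{u}} (hμ : ℵ₀ ≤ μ) (A : Set V) {b b' x x' : V}
    (hb : b ∈ A) (hb' : b' ∈ A) (C : Set V) (hx : x ∈ C)
    (h : Rch X C x x') (hbx : X.Adj b x) (hbx' : X.Adj b' x')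
    (hC : ∀ y ∈ C, μ < #(orbF G A y)) : Lk X μ b b' := by
  intro S hS hbS hb'S
  obtain ⟨P, hPC, hxP, hx'P, hP⟩ := h.exists_finset hx
  obtain ⟨w, hwA, hwP⟩ := avoid (G := G) hμ A P S hS (fun z hz => hC z (hPC hz))
  have h1 : Rch X Sᶜ (w • x) (w • x') :=
    hE.rch w (fun z hz => hwP z (by simpa using hz)) hP
  have h2 : X.Adj b (w • x) := by
    have := hE.adj w _ _ hbx
    rwa [hwA b hb] at this
  have h3 : X.Adj b' (w • x') := by
    have := hE.adj w _ _ hbx'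
    rwa [hwA b' hb'] at this
  exact (Rch.step h2 hbS (hwP x hxP)).trans
    (h1.trans (Rch.step h3.symm (hwP x' hx'P) hb'S))

lemma fix_preserves {D : Set V} {g : G} (hg : ∀ a ∈ Dᶜ, g • a = a) {x : V} (hx : x ∈ D) :
    g • x ∈ D := by
  by_contra hcon
  have h1 := hg (g • x) hcon
  have h2 : g • x = x := MulAction.injective g h1
  exact hcon (by rw [h2]; exact hx)

/-- Step A of the center theorem -/
lemma stepA (hE : Exact X G) {μ ρ τ : Cardinal.{u}} (hc : Cards μ ρ τ) (hNM : NM X μ)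
    (D : Set V) (a x : V) (ha : a ∈ D) (hx : x ∈ D) (hax : X.Adj a x)
    (hbig : τ < #(orbF G Dᶜ a)) : #(orbF G (Dᶜ ∪ {a}) x) ≤ ρ := by
  classical
  by_contra hcon
  rw [not_le] at hcon
  set Z : Set V := {y | y ∈ D ∧ ρ < #(orbF G (Dᶜ ∪ {a}) y)} with hZ
  have hxZ : x ∈ Z := ⟨hx, hcon⟩
  set C : Set V := comp X Z x with hC
  have hxC : x ∈ C := self_mem_comp hxZ
  have hCD : ∀ y ∈ C, y ∈ D := fun y hy => (comp_subset hy).1
  set N : Set V := {b | b ∈ D ∧ b ∉ C ∧ ∃ c ∈ C, X.Adj b c} with hN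
  have hNZ : ∀ b ∈ N, #(orbF G (Dᶜ ∪ {a}) b) ≤ ρ := by
    intro b hb
    by_contra hb2
    rw [not_le] at hb2
    obtain ⟨hbD, hbC, c, hcC, hbc⟩ := hb
    exact hbC (comp_closed hcC ⟨hbD, hb2⟩ hbc.symm)
  have hNlk : ∀ b ∈ N, ∀ b' ∈ N, Lk X μ b b' := by
    intro b hb b' hb'
    obtain ⟨hbD, hbC, c, hcC, hbc⟩ := id hb
    obtain ⟨hbD', hbC', c', hcC', hbc'⟩ := id hb'
    refine link hE hc.hμ (Dᶜ ∪ {a} ∪ {b, b'}) (by simp) (by simp) C hcC
      (comp_rch hcC hcC') hbc hbc' ?_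
    intro y hy
    have hyZ : y ∈ Z := comp_subset hy
    by_contra hy2
    rw [not_lt] at hy2
    have h1 := mk_orbF_le (G := G) (Dᶜ ∪ {a}) {b, b'} y ρ μ hc.oneρ
      (by
        refine le_trans ?_ hc.hμ
        exact (Cardinal.lt_aleph0_of_finite _).le)
      (by
        intro s hs
        rcases hs with rfl | hs
        · exact hNZ _ hb
        · rw [Set.mem_singleton_iff] at hs
          rw [hs]; exact hNZ _ hb')
    rw [hc.hρ] at h1
    have h2 : #(orbF G (Dᶜ ∪ {a}) y) ≤ ρ := h1.trans (by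
      calc ρ * #(orbF G (Dᶜ ∪ {a} ∪ {b, b'}) y) ≤ ρ * ρ := mul_le_mul_right (hy2.trans hc.hμρ) ρ
        _ = ρ := hc.mρ)
    exact absurd hyZ.2 (not_lt.mpr h2)
  have hNle : #N ≤ μ := hNM N hNlk
  -- a nontrivial element fixing N
  have hex : ∃ g : G, (∀ b ∈ Dᶜ ∪ {a} ∪ N, g • b = b) ∧ g • x ≠ x := by
    by_contra hno
    push Not at hno
    have h1 := mk_orbF_le (G := G) (Dᶜ ∪ {a}) N x ρ μ hc.oneρ hNle hNZ
    rw [hc.hρ] at h1
    have h2 : #(orbF G (Dᶜ ∪ {a} ∪ N) x) ≤ 1 := by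
      rw [Cardinal.mk_le_one_iff_set_subsingleton]
      rintro _ ⟨g, hg, rfl⟩ _ ⟨g', hg', rfl⟩
      rw [hno g hg, hno g' hg']
    have h3 : #(orbF G (Dᶜ ∪ {a}) x) ≤ ρ := h1.trans (by
      calc ρ * #(orbF G (Dᶜ ∪ {a} ∪ N) x) ≤ ρ * 1 := mul_le_mul_right h2 ρ
        _ = ρ := mul_one ρ)
    exact absurd hcon (not_lt.mpr h3)
  obtain ⟨g, hg, hgx⟩ := hex
  obtain ⟨g', hg'1, hg'2⟩ := hE.localize C (fun y hy z hz => comp_rch hy hz) g (by
    intro c hcC b hbC hcb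
    by_cases hbD : b ∈ D
    · exact hg b (Or.inr ⟨hbD, hbC, c, hcC, hcb.symm⟩)
    · exact hg b (Or.inl (Or.inl hbD)))
  have hg'x : g' • x ≠ x := by rw [(hg'1 x hxC).1]; exact hgx
  have hvx : ∀ v : G, v • x ∈ C := by
    intro v
    by_contra hv
    have h1 := hg'2 _ hv
    have h2 : v • (g' • x) = v • x := by
      rw [smul_smul, mul_comm, ← smul_smul]; exact h1
    exact hg'x (MulAction.injective v h2)
  have hsub : orbF G Dᶜ a ⊆ N := by
    rintro _ ⟨v, hv, rfl⟩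
    refine ⟨fix_preserves hv ha, ?_, v • x, hvx v, hE.adj v _ _ hax⟩
    intro hvC
    have h1 : v • a ∈ Z := comp_subset hvC
    have h2 : #(orbF G (Dᶜ ∪ {a}) (v • a)) ≤ 1 :=
      (mk_orbF_smul _ v a).trans (mk_orbF_fixed (by simp))
    exact absurd h1.2 (not_lt.mpr (h2.trans hc.oneρ))
  have h1 : #(orbF G Dᶜ a) ≤ τ :=
    (Cardinal.mk_le_mk_of_subset hsub).trans (hNle.trans (hc.hμρ.trans hc.hρτ.le))
  exact absurd hbig (not_lt.mpr h1)

lemma stepB (hE : Exact X G) {μ ρ τ : Cardinal.{u}} (hc : Cards μ ρ τ) (hNM : NM X μ)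
    (D : Set V) (hD : ∀ x ∈ D, ∀ y ∈ D, Rch X D x y)
    (hbig : ∀ a ∈ D, τ < #(orbF G Dᶜ a)) (a x : V) (ha : a ∈ D) (hx : x ∈ D) :
    #(orbF G (Dᶜ ∪ {a}) x) ≤ ρ := by
  have h := hD a ha x hx
  induction h with
  | refl => exact (mk_orbF_fixed (by simp)).trans hc.oneρ
  | @tail b c hab hbc ih =>
    have h1 := ih hbc.2.1
    have h2 := stepA hE hc hNM D b c hbc.2.1 hbc.2.2 hbc.1 (hbig b hbc.2.1)
    have h3 := mk_orbF_le (G := G) (Dᶜ ∪ {a}) {b} c ρ 1 hc.oneρ (by simp) (by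
      intro s hs
      rw [Set.mem_singleton_iff] at hs
      rw [hs]; exact h1)
    rw [Cardinal.power_one] at h3
    refine h3.trans ?_
    calc ρ * #(orbF G (Dᶜ ∪ {a} ∪ {b}) c) ≤ ρ * #(orbF G (Dᶜ ∪ {b}) c) := by
          refine mul_le_mul_right (mk_orbF_mono ?_ c) ρ
          intro z hz
          rcases hz with hz | hz
          · exact Or.inl (Or.inl hz)
          · exact Or.inr hz
      _ ≤ ρ * ρ := mul_le_mul_right h2 ρ
      _ = ρ := hc.mρ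

end

end Pool.Agent.Lib_helper79.EU
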