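import Pool.Agent.Lib_helper79.EU.Rch

set_option autoImplicit false

universe u

namespace Pool.Agent.Lib_helper79.EU

open Cardinal Set

variable {V : Type u}

/-- `G` acts on `X` by automorphisms, realizes every automorphism, and has no involutions. -/
structure Exact (X : SimpleGraph V) (G : Type u) [CommGroup G] [MulAction G V] : Prop where
  adj : ∀ (g : G) (x y : V), X.Adj x y → X.Adj (g • x) (g • y)
  ex : ∀ f : X ≃g X, ∃ g : G, ∀ x, g • x = f x
  tf : ∀ g : G, (∀ x : V, g • g • x = x) → ∀ x : V, g • x = x

/-- build a graph automorphism from two mutually inverse adjacency preserving maps -/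
def mkAut (X : SimpleGraph V) (f f' : V → V) (h1 : ∀ x, f' (f x) = x) (h2 : ∀ x, f (f' x) = x)
    (ha : ∀ x y, X.Adj x y → X.Adj (f x) (f y)) (ha' : ∀ x y, X.Adj x y → X.Adj (f' x) (f' y)) :
    X ≃g X where
  toFun := f
  invFun := f'
  left_inv := h1
  right_inv := h2
  map_rel_iff' := by
    intro a b
    constructor
    · intro h
      have := ha' _ _ h
      simpa [h1] using this
    · exact ha a b

section

variable {X : SimpleGraph V} {G : Type u} [CommGroup G] [MulAction G V]

lemma Exact.rch (hE : Exact X G) {A B : Set V} (g : G) (hAB : ∀ x ∈ A, g • x ∈ B) {x y : V}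
    (h : Rch X A x y) : Rch X B (g • x) (g • y) := by
  induction h with
  | refl => exact Rch.rfl'
  | tail _ hbc ih =>
    exact ih.trans (Rch.step (hE.adj g _ _ hbc.1) (hAB _ hbc.2.1) (hAB _ hbc.2.2))

/-- Localization of an automorphism at a connected set whose boundary is fixed pointwise. -/
lemma Exact.localize (hE : Exact X G) (C : Set V) (hC : ∀ x ∈ C, ∀ y ∈ C, Rch X C x y) (g : G)
    (hg : ∀ c ∈ C, ∀ b, b ∉ C → X.Adj c b → g • b = b) :
    ∃ g' : G, (∀ x ∈ C, g' • x = g • x ∧ g • x ∈ C) ∧ ∀ x, x ∉ C → g' • x = x := by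
  classical
  by_cases h : ∃ c ∈ C, g • c ∈ C
  · obtain ⟨c0, hc0, hgc0⟩ := h
    have key1 : ∀ c ∈ C, g • c ∈ C := by
      intro c hc
      have := hC c0 hc0 c hc
      induction this with
      | refl => exact hgc0
      | @tail b c hab hbc ih =>
        have hgb := ih hbc.2.1
        by_contra hcon
        have h1 : X.Adj (g • b) (g • c) := hE.adj g _ _ hbc.1
        have h2 := hg _ hgb _ hcon h1
        have h3 : g • c = c := MulAction.injective g h2
        exact hcon (by rw [h3]; exact hc)
    have hi : ∀ b : V, g • b = b → g⁻¹ • b = b := by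
      intro b hb
      rw [inv_smul_eq_iff, hb]
    have key2 : ∀ c ∈ C, g⁻¹ • c ∈ C := by
      intro c hc
      have := hC (g • c0) hgc0 c hc
      induction this with
      | refl => simpa using hc0
      | @tail b c hab hbc ih =>
        have hgb := ih hbc.2.1
        by_contra hcon
        have h1 : X.Adj (g⁻¹ • b) (g⁻¹ • c) := hE.adj g⁻¹ _ _ hbc.1
        have h2 := hg _ hgb _ hcon h1
        rw [smul_inv_smul] at h2
        exact hcon (h2 ▸ hc)
    have hai : ∀ (k : G), (∀ c ∈ C, ∀ b, b ∉ C → X.Adj c b → k • b = b) →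
        ∀ x y, X.Adj x y →
          X.Adj (if x ∈ C then k • x else x) (if y ∈ C then k • y else y) := by
      intro k hk x y hxy
      by_cases hx : x ∈ C <;> by_cases hy : y ∈ C
      · simp only [hx, hy, if_true]; exact hE.adj _ _ _ hxy
      · simp only [hx, hy, if_true, if_false]
        have := hE.adj k _ _ hxy
        rwa [hk x hx y hy hxy] at this
      · simp only [hx, hy, if_true, if_false]
        have := hE.adj k _ _ hxy
        rwa [hk y hy x hx hxy.symm] at this
      · simp only [hx, hy, if_false]; exact hxy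
    obtain ⟨g', hg'⟩ := hE.ex (mkAut X (fun x => if x ∈ C then g • x else x)
      (fun x => if x ∈ C then g⁻¹ • x else x)
      (by
        intro x
        by_cases hx : x ∈ C
        · simp [hx, key1 x hx]
        · simp [hx])
      (by
        intro x
        by_cases hx : x ∈ C
        · simp [hx, key2 x hx]
        · simp [hx])
      (hai g hg)
      (hai g⁻¹ (fun c hc b hb hcb => hi b (hg c hc b hb hcb))))
    refine ⟨g', ?_, ?_⟩
    · intro x hx
      refine ⟨?_, key1 x hx⟩
      rw [hg']
      show (if x ∈ C then g • x else x) = g • x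
      simp [hx]
    · intro x hx
      rw [hg']
      show (if x ∈ C then g • x else x) = x
      simp [hx]
  · -- the swap case
    have h' : ∀ c ∈ C, g • c ∉ C := fun c hc hgc => h ⟨c, hc, hgc⟩
    rcases C.eq_empty_or_nonempty with hCe | ⟨c0, hc0⟩
    · refine ⟨1, ?_, ?_⟩
      · intro x hx; rw [hCe] at hx; exact absurd hx (Set.notMem_empty x)
      · intro x _; simp
    exfalso
    have hi : ∀ b : V, g • b = b → g⁻¹ • b = b := by
      intro b hb
      rw [inv_smul_eq_iff, hb]
    set f : V → V := fun x => if x ∈ C then g • x else if g⁻¹ • x ∈ C then g⁻¹ • x else x with hf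
    have hff : ∀ x, f (f x) = x := by
      intro x
      by_cases hx : x ∈ C
      · have h1 : f x = g • x := by simp [hf, hx]
        rw [h1]
        have h2 : g • x ∉ C := h' x hx
        simp [hf, h2, hx]
      · by_cases hx2 : g⁻¹ • x ∈ C
        · have h1 : f x = g⁻¹ • x := by simp [hf, hx, hx2]
          rw [h1]
          simp [hf, hx2]
        · have h1 : f x = x := by simp [hf, hx, hx2]
          rw [h1, h1]
    -- adjacency, first two cases
    have hadj1 : ∀ x y, x ∈ C → X.Adj x y → X.Adj (f x) (f y) := by
      intro x y hx hxy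
      have h1 : f x = g • x := by simp [hf, hx]
      by_cases hy : y ∈ C
      · have h2 : f y = g • y := by simp [hf, hy]
        rw [h1, h2]; exact hE.adj _ _ _ hxy
      · have h3 := hg x hx y hy hxy
        have h4 := hi y h3
        have h2 : f y = y := by
          simp [hf, hy, h4]
        rw [h1, h2]
        have := hE.adj g _ _ hxy
        rwa [h3] at this
    have hadj2 : ∀ x y, x ∉ C → g⁻¹ • x ∈ C → X.Adj x y → X.Adj (f x) (f y) := by
      intro x y hx hx2 hxy
      have h1 : f x = g⁻¹ • x := by simp [hf, hx, hx2]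
      have h5 := hE.adj g⁻¹ _ _ hxy
      by_cases hy : g⁻¹ • y ∈ C
      · have hy1 : y ∉ C := by
          have := h' _ hy
          rwa [smul_inv_smul] at this
        have h2 : f y = g⁻¹ • y := by simp [hf, hy, hy1]
        rw [h1, h2]; exact h5
      · have h3 := hg _ hx2 _ hy h5
        rw [smul_inv_smul] at h3
        have hy1 : y ∉ C := by
          intro hyC
          exact hy (h3 ▸ hyC)
        have h2 : f y = y := by
          simp [hf, hy1, ← h3]
        rw [h1, h2]
        rwa [← h3] at h5
    have hadj : ∀ x y, X.Adj x y → X.Adj (f x) (f y) := by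
      intro x y hxy
      by_cases hx : x ∈ C
      · exact hadj1 x y hx hxy
      by_cases hx2 : g⁻¹ • x ∈ C
      · exact hadj2 x y hx hx2 hxy
      by_cases hy : y ∈ C
      · exact (hadj1 y x hy hxy.symm).symm
      by_cases hy2 : g⁻¹ • y ∈ C
      · exact (hadj2 y x hy hy2 hxy.symm).symm
      simpa [hf, hx, hx2, hy, hy2] using hxy
    obtain ⟨k, hk⟩ := hE.ex (mkAut X f f hff hff hadj hadj)
    have hk' : ∀ x : V, k • x = f x := hk
    have hk2 : ∀ x : V, k • k • x = x := by
      intro x; rw [hk', hk', hff]
    have hk3 := hE.tf k hk2 c0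
    rw [hk'] at hk3
    have h1 : f c0 = g • c0 := by simp [hf, hc0]
    rw [h1] at hk3
    exact h' c0 hc0 (hk3.symm ▸ hc0)

end

end Pool.Agent.Lib_helper79.EU
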