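import Pool.Agent.Lib_helper79.EU.Center

set_option autoImplicit false

universe u

namespace Pool.Agent.Lib_helper79.EU

open Cardinal Set

variable {V : Type u}

section

variable {X : SimpleGraph V} {G : Type u} [CommGroup G] [MulAction G V]

/-- almost invariance of the position of orbit points relative to a small separator. -/
lemma stepC1 (hE : Exact X G) {μ ρ τ : Cardinal.{u}} (hc : Cards μ ρ τ)
    (D : Set V) (hD : ∀ x ∈ D, ∀ y ∈ D, Rch X D x y)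
    (hB : ∀ a ∈ D, ∀ x ∈ D, #(orbF G (Dᶜ ∪ {a}) x) ≤ ρ) (a : V) (ha : a ∈ D)
    (h : G) (hh : ∀ b ∈ Dᶜ, h • b = b) (S : Set V) (hS : #S ≤ μ) :
    #({o | o ∈ orbF G Dᶜ a ∧ ¬ (o ∉ S ∧ Rch X (D \ S) o (h • o))} : Set V) ≤ ρ := by
  classical
  obtain ⟨P, hPD, haP, hhaP, hP⟩ := (hD a ha (h • a) (fix_preserves hh ha)).exists_finset ha
  let Bd : P × S → Set V := fun q => {o | ∃ g : G, (∀ b ∈ Dᶜ, g • b = b) ∧ g • a = o ∧ g • (q.1 : V) = q.2}
  have hBd : ∀ q, #(Bd q) ≤ ρ := by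
    rintro ⟨p, s⟩
    by_cases hne : ∃ g0 : G, (∀ b ∈ Dᶜ, g0 • b = b) ∧ g0 • (p : V) = s
    · obtain ⟨g0, hg0, hg0p⟩ := hne
      have hsub : Bd (p, s) ⊆ (fun y => g0 • y) '' orbF G (Dᶜ ∪ {(p : V)}) a := by
        rintro o ⟨g, hg, rfl, hgp⟩
        refine ⟨(g0⁻¹ * g) • a, ⟨g0⁻¹ * g, ?_, rfl⟩, ?_⟩
        · intro b hb
          rw [mul_smul, inv_smul_eq_iff]
          rcases hb with hb | hb
          · rw [hg b hb, hg0 b hb]
          · rw [Set.mem_singleton_iff] at hb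
            subst hb
            rw [hg0p]; exact hgp
        · show g0 • (g0⁻¹ * g) • a = g • a
          rw [smul_smul]; congr 1; group
      exact (Cardinal.mk_le_mk_of_subset hsub).trans
        (Cardinal.mk_image_le.trans (hB p (hPD p.2) a ha))
    · have hemp : Bd (p, s) = ∅ := by
        ext o
        simp only [Set.mem_empty_iff_false, iff_false]
        rintro ⟨g, hg, _, hgp⟩
        exact hne ⟨g, hg, hgp⟩
      rw [hemp]
      simp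
  have hsub : ({o | o ∈ orbF G Dᶜ a ∧ ¬ (o ∉ S ∧ Rch X (D \ S) o (h • o))} : Set V) ⊆
      ⋃ q, Bd q := by
    rintro o ⟨⟨g, hg, rfl⟩, hno⟩
    by_contra hcon
    apply hno
    have hav : ∀ p ∈ P, g • p ∉ S := by
      intro p hp hps
      apply hcon
      rw [Set.mem_iUnion]
      exact ⟨((⟨p, hp⟩ : P), (⟨g • p, hps⟩ : S)), g, hg, rfl, rfl⟩
    refine ⟨hav a haP, ?_⟩
    have h1 : Rch X (D \ S) (g • a) (g • h • a) :=
      hE.rch (A := (P : Set V)) (B := D \ S) g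
        (fun z hz => ⟨fix_preserves hg (hPD hz), hav z (by simpa using hz)⟩) hP
    have h2 : h • g • a = g • h • a := by rw [smul_smul, smul_smul, mul_comm]
    rw [h2]; exact h1
  refine (Cardinal.mk_le_mk_of_subset hsub).trans (mk_iUnion_le_c hc.aρ ?_ hBd)
  have h3 : #(P × S) = #P * #S := by simp
  rw [h3]
  calc #P * #S ≤ ℵ₀ * μ := mul_le_mul' (Cardinal.lt_aleph0_of_finite _).le hS
    _ ≤ ρ * ρ := mul_le_mul' hc.aρ hc.hμρ
    _ = ρ := hc.mρ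

lemma stepC2 (hE : Exact X G) {μ ρ τ : Cardinal.{u}} (hc : Cards μ ρ τ)
    (D : Set V) (hD : ∀ x ∈ D, ∀ y ∈ D, Rch X D x y)
    (hB : ∀ a ∈ D, ∀ x ∈ D, #(orbF G (Dᶜ ∪ {a}) x) ≤ ρ) (a : V) (ha : a ∈ D)
    (hbig : τ < #(orbF G Dᶜ a)) (S : Set V) (hS : #S ≤ μ)
    (O' : Set V) (hO' : O' ⊆ orbF G Dᶜ a) (hO'c : #O' ≤ τ) :
    ∃ y ∈ D \ S, #(O' \ comp X (D \ S) y : Set V) ≤ ρ := by
  classical
  have hch : ∀ o : O', ∃ h : G, (∀ b ∈ Dᶜ, h • b = b) ∧ h • a = o := fun o => hO' o.2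
  choose hh hh1 hh2 using hch
  let E : G → Set V := fun h => {o | o ∈ orbF G Dᶜ a ∧ ¬ (o ∉ S ∧ Rch X (D \ S) o (h • o))}
  let B : Set V := E 1 ∪ ⋃ o : O', E (hh o)
  have hBle : #B ≤ τ := by
    calc #B ≤ #(E 1) + #(⋃ o : O', E (hh o) : Set V) := Cardinal.mk_union_le _ _
      _ ≤ τ + τ := by
        refine add_le_add ?_ ?_
        · exact (stepC1 hE hc D hD hB a ha 1 (by simp) S hS).trans hc.hρτ.le
        · exact mk_iUnion_le_c hc.aτ hO'c (fun o =>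
            (stepC1 hE hc D hD hB a ha (hh o) (hh1 o) S hS).trans hc.hρτ.le)
      _ = τ := Cardinal.add_eq_self hc.aτ
  have hns : ¬ (orbF G Dᶜ a ⊆ B) := by
    intro hsub
    exact absurd ((Cardinal.mk_le_mk_of_subset hsub).trans hBle) (not_le.mpr hbig)
  rw [Set.not_subset] at hns
  obtain ⟨_, ⟨g, hg, rfl⟩, hgB⟩ := hns
  have hmem : g • a ∈ orbF G Dᶜ a := ⟨g, hg, rfl⟩
  have h1 : g • a ∉ S := by
    intro hS'
    apply hgB
    left
    exact ⟨hmem, fun hcon => hcon.1 hS'⟩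
  have hgaD : g • a ∈ D \ S := ⟨fix_preserves hg ha, h1⟩
  refine ⟨g • a, hgaD, ?_⟩
  refine (Cardinal.mk_le_mk_of_subset ?_).trans (stepC1 hE hc D hD hB a ha g hg S hS)
  rintro o ⟨hoO', hoc⟩
  refine ⟨hO' hoO', ?_⟩
  rintro ⟨hoS, hor⟩
  apply hoc
  have hoD : o ∈ D := by
    obtain ⟨k, hk, rfl⟩ := hO' hoO'
    exact fix_preserves hk ha
  refine ⟨⟨hoD, hoS⟩, ?_⟩
  -- o ~ g o = g h a = h g a ~ g a
  have h2 : hh ⟨o, hoO'⟩ • a = o := hh2 ⟨o, hoO'⟩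
  have h3 : Rch X (D \ S) (g • a) (hh ⟨o, hoO'⟩ • g • a) := by
    by_contra hcon
    apply hgB
    right
    rw [Set.mem_iUnion]
    exact ⟨⟨o, hoO'⟩, hmem, fun hcon' => hcon hcon'.2⟩
  have h4 : hh ⟨o, hoO'⟩ • g • a = g • o := by
    conv_rhs => rw [← h2]
    rw [smul_smul, smul_smul, mul_comm]
  rw [h4] at h3
  exact h3.trans hor.symm

lemma stepC3 (hE : Exact X G) {μ ρ τ : Cardinal.{u}} (hc : Cards μ ρ τ)
    (D : Set V) (hD : ∀ x ∈ D, ∀ y ∈ D, Rch X D x y)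
    (hB : ∀ a ∈ D, ∀ x ∈ D, #(orbF G (Dᶜ ∪ {a}) x) ≤ ρ) (a : V) (ha : a ∈ D)
    (hbig : τ < #(orbF G Dᶜ a)) (S : Set V) (hS : #S ≤ μ) :
    ∃ y ∈ D \ S, #(orbF G Dᶜ a \ comp X (D \ S) y : Set V) ≤ ρ := by
  classical
  set O := orbF G Dᶜ a with hO
  have hsucc : Order.succ ρ ≤ τ := Order.succ_le_of_lt hc.hρτ
  obtain ⟨O1, hO1O, hO1c⟩ := Cardinal.le_mk_iff_exists_subset.mp (hsucc.trans hbig.le)
  obtain ⟨y, hyD, hy⟩ := stepC2 hE hc D hD hB a ha hbig S hS O1 hO1O (hO1c.le.trans hsucc)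
  refine ⟨y, hyD, ?_⟩
  by_contra hcon
  rw [not_le] at hcon
  obtain ⟨O2, hO2s, hO2c⟩ := Cardinal.le_mk_iff_exists_subset.mp (Order.succ_le_of_lt hcon)
  have hO2O : O2 ⊆ O := fun z hz => (hO2s hz).1
  have h12 : #(O1 ∪ O2 : Set V) ≤ τ := by
    calc #(O1 ∪ O2 : Set V) ≤ #O1 + #O2 := Cardinal.mk_union_le _ _
      _ ≤ τ + τ := add_le_add (hO1c.le.trans hsucc) (hO2c.le.trans hsucc)
      _ = τ := Cardinal.add_eq_self hc.aτ
  obtain ⟨z, hzD, hz⟩ := stepC2 hE hc D hD hB a ha hbig S hS (O1 ∪ O2)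
    (Set.union_subset hO1O hO2O) h12
  -- common point in O1
  have hcommon : ∃ o ∈ O1, o ∈ comp X (D \ S) y ∧ o ∈ comp X (D \ S) z := by
    by_contra hno
    push Not at hno
    have hsub : O1 ⊆ (O1 \ comp X (D \ S) y) ∪ ((O1 ∪ O2) \ comp X (D \ S) z) := by
      intro o ho
      by_cases h1 : o ∈ comp X (D \ S) y
      · right; exact ⟨Or.inl ho, hno o ho h1⟩
      · left; exact ⟨ho, h1⟩
    have h1 : #O1 ≤ ρ := by
      calc #O1 ≤ #((O1 \ comp X (D \ S) y) ∪ ((O1 ∪ O2) \ comp X (D \ S) z) : Set V) :=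
            Cardinal.mk_le_mk_of_subset hsub
        _ ≤ #(O1 \ comp X (D \ S) y : Set V) + #((O1 ∪ O2) \ comp X (D \ S) z : Set V) :=
            Cardinal.mk_union_le _ _
        _ ≤ ρ + ρ := add_le_add hy hz
        _ = ρ := Cardinal.add_eq_self hc.aρ
    rw [hO1c] at h1
    exact absurd h1 (not_le.mpr (Order.lt_succ ρ))
  obtain ⟨o, hoO1, hoy, hoz⟩ := hcommon
  have hyz : Rch X (D \ S) y z := hoy.2.trans hoz.2.symm
  have hsub : O2 ⊆ (O1 ∪ O2) \ comp X (D \ S) z := by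
    intro w hw
    refine ⟨Or.inr hw, fun hwz => ?_⟩
    exact (hO2s hw).2 ⟨hwz.1, hyz.trans hwz.2⟩
  have h1 : #O2 ≤ ρ := (Cardinal.mk_le_mk_of_subset hsub).trans hz
  rw [hO2c] at h1
  exact absurd h1 (not_le.mpr (Order.lt_succ ρ))

/-- the center theorem -/
theorem center (hE : Exact X G) {μ ρ τ : Cardinal.{u}} (hc : Cards μ ρ τ) (hNM : NM X μ)
    (D : Set V) (hDne : D.Nonempty) (hD : ∀ x ∈ D, ∀ y ∈ D, Rch X D x y) :
    ∃ a ∈ D, #(orbF G Dᶜ a) ≤ τ := by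
  classical
  by_contra hcon
  push Not at hcon
  have hB : ∀ a ∈ D, ∀ x ∈ D, #(orbF G (Dᶜ ∪ {a}) x) ≤ ρ :=
    fun a ha x hx => stepB hE hc hNM D hD hcon a x ha hx
  obtain ⟨a, ha⟩ := hDne
  set O := orbF G Dᶜ a with hO
  have hbig : τ < #O := hcon a ha
  let β : Set V → Set V := fun S => {z | z ∈ D \ S ∧ #(O \ comp X (D \ S) z : Set V) ≤ ρ}
  have hβne : ∀ S : Set V, #S ≤ μ → (β S).Nonempty := by
    intro S hS
    obtain ⟨y, hy1, hy2⟩ := stepC3 hE hc D hD hB a ha hbig S hS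
    exact ⟨y, hy1, hy2⟩
  have hβconn : ∀ S : Set V, ∀ y ∈ β S, ∀ z ∈ β S, Rch X (D \ S) y z := by
    intro S y hy z hz
    by_contra hno
    have hsub : O ⊆ (O \ comp X (D \ S) y) ∪ (O \ comp X (D \ S) z) := by
      intro o ho
      by_cases h1 : o ∈ comp X (D \ S) y
      · right
        refine ⟨ho, fun h2 => hno (h1.2.trans h2.2.symm)⟩
      · left; exact ⟨ho, h1⟩
    have h1 : #O ≤ ρ := by
      calc #O ≤ #((O \ comp X (D \ S) y) ∪ (O \ comp X (D \ S) z) : Set V) :=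
            Cardinal.mk_le_mk_of_subset hsub
        _ ≤ #(O \ comp X (D \ S) y : Set V) + #(O \ comp X (D \ S) z : Set V) :=
            Cardinal.mk_union_le _ _
        _ ≤ ρ + ρ := add_le_add hy.2 hz.2
        _ = ρ := Cardinal.add_eq_self hc.aρ
    exact absurd (h1.trans hc.hρτ.le) (not_le.mpr hbig)
  have hβmono : ∀ S S' : Set V, S ⊆ S' → β S' ⊆ β S := by
    intro S S' hSS z hz
    refine ⟨⟨hz.1.1, fun h => hz.1.2 (hSS h)⟩, ?_⟩
    refine (Cardinal.mk_le_mk_of_subset ?_).trans hz.2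
    intro o ho
    refine ⟨ho.1, fun h => ho.2 (comp_mono ?_ h)⟩
    exact Set.sdiff_subset_sdiff_right hSS
  have hβclosed : ∀ S : Set V, ∀ y ∈ β S, ∀ z ∈ D \ S, X.Adj y z → z ∈ β S := by
    intro S y hy z hz hyz
    refine ⟨hz, ?_⟩
    refine (Cardinal.mk_le_mk_of_subset ?_).trans hy.2
    intro o ho
    refine ⟨ho.1, fun h => ho.2 ⟨h.1, ?_⟩⟩
    exact (Rch.step hyz.symm hz hy.1).trans h.2
  -- the set of robust vertices
  let U : Set V := {u | u ∈ D ∧ ∀ S : Set V, #S ≤ μ → u ∉ S → u ∈ β S}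
  have hUlk : ∀ u ∈ U, ∀ u' ∈ U, Lk X μ u u' := by
    intro u hu u' hu' S hS huS hu'S
    have h1 := hβconn S u (hu.2 S hS huS) u' (hu'.2 S hS hu'S)
    exact h1.mono (fun z hz => hz.2)
  have hUle : #U ≤ μ := hNM U hUlk
  obtain ⟨w, hw⟩ := hβne U hUle
  -- separators for non robust vertices
  have hsep : ∀ v : V, ∃ S : Set V, #S ≤ μ ∧ (v ∈ D → v ∉ U → v ∉ S ∧ v ∉ β S) := by
    intro v
    by_cases hv : v ∈ D ∧ v ∉ U
    · have h1 : ¬ ∀ S : Set V, #S ≤ μ → v ∉ S → v ∈ β S := fun h => hv.2 ⟨hv.1, h⟩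
      push Not at h1
      obtain ⟨S, hS1, hS2, hS3⟩ := h1
      exact ⟨S, hS1, fun _ _ => ⟨hS2, hS3⟩⟩
    · refine ⟨∅, by simp, fun h1 h2 => absurd ⟨h1, h2⟩ hv⟩
  choose Sv hSv1 hSv2 using hsep
  let T : ℕ → Set V := fun n =>
    Nat.rec (motive := fun _ => Set V) (U ∪ {w}) (fun _ A => A ∪ ⋃ v : A, Sv (v : V)) n
  have hT0 : T 0 = U ∪ {w} := rfl
  have hTs : ∀ n, T (n + 1) = T n ∪ ⋃ v : T n, Sv (v : V) := by
    intro n
    rfl
  have hTle : ∀ n, #(T n) ≤ μ := by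
    intro n
    induction n with
    | zero =>
      rw [hT0]
      calc #(U ∪ {w} : Set V) ≤ #U + #({w} : Set V) := Cardinal.mk_union_le _ _
        _ ≤ μ + μ := add_le_add hUle (by
            simpa using Cardinal.one_le_aleph0.trans hc.hμ)
        _ = μ := Cardinal.add_eq_self hc.hμ
    | succ n ih =>
      rw [hTs]
      calc #(T n ∪ ⋃ v : T n, Sv v : Set V) ≤ #(T n) + #(⋃ v : T n, Sv v : Set V) :=
            Cardinal.mk_union_le _ _
        _ ≤ μ + μ := add_le_add ih (mk_iUnion_le_c hc.hμ ih (fun v => hSv1 v))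
        _ = μ := Cardinal.add_eq_self hc.hμ
  let Tω : Set V := ⋃ n, T n
  have hTωle : #Tω ≤ μ := by
    have h1 : Tω = ⋃ n : ULift.{u} ℕ, T n.down := by
      ext z
      constructor
      · intro hz
        obtain ⟨n, hn⟩ := Set.mem_iUnion.mp hz
        exact Set.mem_iUnion.mpr ⟨⟨n⟩, hn⟩
      · intro hz
        obtain ⟨n, hn⟩ := Set.mem_iUnion.mp hz
        exact Set.mem_iUnion.mpr ⟨n.down, hn⟩
    rw [h1]
    have h2 : #(ULift.{u} ℕ) ≤ μ := by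
      rw [Cardinal.mk_uLift, Cardinal.mk_nat, Cardinal.lift_aleph0]
      exact hc.hμ
    exact mk_iUnion_le_c hc.hμ h2 (fun n => hTle n.down)
  have hUT : U ⊆ Tω := fun u hu => Set.mem_iUnion.mpr ⟨0, Or.inl hu⟩
  have hwT : w ∈ Tω := Set.mem_iUnion.mpr ⟨0, Or.inr rfl⟩
  have hTcl : ∀ v ∈ Tω, Sv v ⊆ Tω := by
    intro v hv z hz
    obtain ⟨n, hn⟩ := Set.mem_iUnion.mp hv
    refine Set.mem_iUnion.mpr ⟨n + 1, ?_⟩
    rw [hTs]
    exact Or.inr (Set.mem_iUnion.mpr ⟨⟨v, hn⟩, hz⟩)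
  obtain ⟨z, hz⟩ := hβne Tω hTωle
  have hzw : Rch X (D \ U) z w := hβconn U z (hβmono U Tω hUT hz) w hw
  have hall0 : ∀ w' : V, Rch X (D \ U) z w' → w' ∈ β Tω := by
    intro w' hzw'
    induction hzw' with
    | refl => exact hz
    | @tail b c hab hbc ih =>
      -- c in D \ U
      have hb := ih
      by_cases hcT : c ∈ Tω
      · exfalso
        have h1 := hSv2 c hbc.2.2.1 hbc.2.2.2
        have h2 : b ∈ β (Sv c) := hβmono _ _ (hTcl c hcT) hb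
        exact h1.2 (hβclosed (Sv c) b h2 c ⟨hbc.2.2.1, h1.1⟩ hbc.1)
      · exact hβclosed Tω b hb c ⟨hbc.2.2.1, hcT⟩ hbc.1
  exact (hall0 w hzw).1.2 hwT

end

end Pool.Agent.Lib_helper79.EU
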