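import Pool.Agent.Lib_helper79.EU.Center

set_option autoImplicit false

universe u

namespace Pool.Agent.Lib_helper79.EU

open Cardinal Set

variable {V : Type u}

section

variable {X : SimpleGraph V}

lemma reach_before {A : Set V} {u v : V} (huA : u ∈ A) (huv : u ≠ v) (h : Rch X A u v) :
    ∃ y ∈ comp X (A \ {v}) u, X.Adj y v := by
  have key : ∀ w, Rch X A u w →
      w ∈ comp X (A \ {v}) u ∨ ∃ y ∈ comp X (A \ {v}) u, X.Adj y v := by
    intro w hw
    induction hw with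
    | refl => left; exact self_mem_comp ⟨huA, by simpa using huv⟩
    | @tail b c hab hbc ih =>
      rcases ih with hb | hfound
      · by_cases hcv : c = v
        · right; exact ⟨b, hb, hcv ▸ hbc.1⟩
        · left
          exact comp_closed hb ⟨hbc.2.2, by simpa using hcv⟩ hbc.1
      · right; exact hfound
  rcases key v h with h1 | h1
  · exact absurd rfl h1.1.2
  · exact h1

/-- `p` is a possible branch set with a root in `U`. -/
def Good (X : SimpleGraph V) (μ : Cardinal.{u}) (U : Set V) (p : V × Set V) : Prop :=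
  p.1 ∈ U ∧ p.1 ∈ p.2 ∧ (∀ x ∈ p.2, ∀ y ∈ p.2, Rch X p.2 x y) ∧ #p.2 ≤ μ

/-- disjoint and adjacent branch sets -/
def Rel (X : SimpleGraph V) (p q : V × Set V) : Prop :=
  Disjoint p.2 q.2 ∧ ∃ x ∈ p.2, ∃ y ∈ q.2, X.Adj x y

theorem exists_minor {μ : Cardinal.{u}} (hμ : ℵ₀ ≤ μ) (U : Set V)
    (hU : ∀ x ∈ U, ∀ y ∈ U, Lk X μ x y) (hUc : μ < #U) (T : Type u) (hT : #T ≤ μ) :
    ∃ B : T → Set V, (∀ t, (B t).Nonempty) ∧ (∀ t, ∀ x ∈ B t, ∀ y ∈ B t, Rch X (B t) x y) ∧
      (∀ s t, s ≠ t → Disjoint (B s) (B t)) ∧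
      (∀ s t, s ≠ t → ∃ x ∈ B s, ∃ y ∈ B t, X.Adj x y) := by
  classical
  let F : Set (Set (V × Set V)) :=
    {A | (∀ p ∈ A, Good X μ U p) ∧ ∀ p ∈ A, ∀ q ∈ A, p ≠ q → Rel X p q}
  obtain ⟨A, hA⟩ := zorn_subset F (by
    intro c hcF hchain
    refine ⟨⋃₀ c, ⟨?_, ?_⟩, fun s hs => Set.subset_sUnion_of_mem hs⟩
    · rintro p ⟨s, hs, hp⟩
      exact (hcF hs).1 p hp
    · rintro p ⟨s, hs, hp⟩ q ⟨t, ht, hq⟩ hpq
      rcases hchain.total hs ht with h | h
      · exact (hcF ht).2 p (h hp) q hq hpq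
      · exact (hcF hs).2 p hp q (h hq) hpq)
  have hAF : A ∈ F := hA.prop
  have hAc : μ < #A := by
    by_contra hcon
    rw [not_lt] at hcon
    let W : Set V := ⋃ p : A, (p : V × Set V).2
    have hW : #W ≤ μ := mk_iUnion_le_c hμ hcon (fun p => (hAF.1 p p.2).2.2.2)
    have hns : ¬ U ⊆ W := fun h =>
      absurd ((Cardinal.mk_le_mk_of_subset h).trans hW) (not_le.mpr hUc)
    rw [Set.not_subset] at hns
    obtain ⟨u, huU, huW⟩ := hns
    -- paths
    have hpath : ∀ p : A, ∃ K : Set V, K.Finite ∧ u ∈ K ∧ (∀ x ∈ K, ∀ y ∈ K, Rch X K x y) ∧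
        Disjoint K W ∧ ∃ y ∈ K, X.Adj y (p : V × Set V).1 := by
      intro p
      obtain ⟨hp1, hp2, hp3, hp4⟩ := hAF.1 p p.2
      set v := (p : V × Set V).1 with hv
      have hvW : v ∈ W := Set.mem_iUnion.mpr ⟨p, hp2⟩
      have huv : u ≠ v := fun h => huW (h ▸ hvW)
      have hS : #(W \ {v} : Set V) ≤ μ :=
        (Cardinal.mk_le_mk_of_subset Set.sdiff_subset).trans hW
      have h1 : Rch X (W \ {v})ᶜ u v := hU u huU v hp1 (W \ {v}) hS
        (fun h => huW h.1) (fun h => h.2 rfl)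
      have huA : u ∈ (W \ {v})ᶜ := fun h => huW h.1
      obtain ⟨P, hPA, huP, hvP, hP⟩ := h1.exists_finset huA
      obtain ⟨y, hy, hyv⟩ := reach_before (A := (P : Set V)) (by simpa using huP) huv hP
      refine ⟨comp X ((P : Set V) \ {v}) u, ?_, ?_, fun x hx y hy => comp_rch hx hy, ?_,
        y, hy, hyv⟩
      · exact (P.finite_toSet.subset (comp_subset.trans Set.sdiff_subset))
      · exact self_mem_comp ⟨by simpa using huP, by simpa using huv⟩
      · rw [Set.disjoint_left]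
        intro x hx hxW
        have h2 := comp_subset hx
        exact hPA h2.1 ⟨hxW, h2.2⟩
    choose K hK1 hK2 hK3 hK4 hK5 using hpath
    let Bn : Set V := {u} ∪ ⋃ p : A, K p
    have huB : u ∈ Bn := Or.inl rfl
    have hKB : ∀ p, K p ⊆ Bn := fun p z hz => Or.inr (Set.mem_iUnion.mpr ⟨p, hz⟩)
    have hBW : Disjoint Bn W := by
      rw [Set.disjoint_left]
      rintro x (hx | hx) hxW
      · rw [Set.mem_singleton_iff] at hx
        exact huW (hx ▸ hxW)
      · obtain ⟨p, hp⟩ := Set.mem_iUnion.mp hx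
        exact Set.disjoint_left.mp (hK4 p) hp hxW
    have hBconn0 : ∀ x ∈ Bn, Rch X Bn u x := by
      rintro x (hx | hx)
      · rw [Set.mem_singleton_iff] at hx
        rw [hx]; exact Rch.rfl'
      · obtain ⟨p, hp⟩ := Set.mem_iUnion.mp hx
        exact (hK3 p u (hK2 p) x hp).mono (hKB p)
    have hBc : #Bn ≤ μ := by
      calc #Bn ≤ #({u} : Set V) + #(⋃ p : A, K p : Set V) := Cardinal.mk_union_le _ _
        _ ≤ μ + μ := by
          refine add_le_add (by simpa using Cardinal.one_le_aleph0.trans hμ) ?_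
          exact mk_iUnion_le_c hμ hcon (fun p =>
            (Cardinal.lt_aleph0_iff_set_finite.mpr (hK1 p)).le.trans hμ)
        _ = μ := Cardinal.add_eq_self hμ
    let pn : V × Set V := (u, Bn)
    have hpnGood : Good X μ U pn :=
      ⟨huU, huB, fun x hx y hy => (hBconn0 x hx).symm.trans (hBconn0 y hy), hBc⟩
    have hpnRel : ∀ p ∈ A, Rel X pn p := by
      intro p hp
      refine ⟨?_, ?_⟩
      · rw [Set.disjoint_left]
        intro x hx hxp
        exact Set.disjoint_left.mp hBW hx (Set.mem_iUnion.mpr ⟨⟨p, hp⟩, hxp⟩)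
      · obtain ⟨y, hy, hyv⟩ := hK5 ⟨p, hp⟩
        exact ⟨y, hKB _ hy, p.1, (hAF.1 p hp).2.1, hyv⟩
    have hRelsymm : ∀ p q, Rel X p q → Rel X q p := by
      rintro p q ⟨h1, x, hx, y, hy, hxy⟩
      exact ⟨h1.symm, y, hy, x, hx, hxy.symm⟩
    have hins : insert pn A ∈ F := by
      refine ⟨?_, ?_⟩
      · intro p hp
        rcases hp with rfl | hp
        · exact hpnGood
        · exact hAF.1 p hp
      · intro p hp q hq hpq
        rcases hp with rfl | hp
        · rcases hq with rfl | hq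
          · exact absurd rfl hpq
          · exact hpnRel q hq
        · rcases hq with rfl | hq
          · exact hRelsymm _ _ (hpnRel p hp)
          · exact hAF.2 p hp q hq hpq
    have hsub : insert pn A ⊆ A := hA.le_of_ge hins (Set.subset_insert _ _)
    have hpnA : pn ∈ A := hsub (Set.mem_insert _ _)
    exact huW (Set.mem_iUnion.mpr ⟨⟨pn, hpnA⟩, huB⟩)
  obtain ⟨e⟩ := (Cardinal.le_def _ _).mp (hT.trans hAc.le)
  have hne : ∀ s t, s ≠ t → (e s : V × Set V) ≠ (e t : V × Set V) := by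
    intro s t hst h
    exact hst (e.injective (Subtype.ext h))
  refine ⟨fun t => (e t : V × Set V).2, ?_, ?_, ?_, ?_⟩
  · intro t; exact ⟨_, (hAF.1 _ (e t).2).2.1⟩
  · intro t; exact (hAF.1 _ (e t).2).2.2.1
  · intro s t hst; exact (hAF.2 _ (e s).2 _ (e t).2 (hne s t hst)).1
  · intro s t hst; exact (hAF.2 _ (e s).2 _ (e t).2 (hne s t hst)).2

end

end Pool.Agent.Lib_helper79.EU
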