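import Pool.Agent.Lib_helper79.EU.Exact

set_option autoImplicit false

universe u

namespace Pool.Agent.Lib_helper79.EU

open Cardinal Set

variable {V : Type u}

lemma mk_iUnion_le_c {ι : Type u} {f : ι → Set V} {c : Cardinal.{u}} (hc : ℵ₀ ≤ c)
    (h1 : #ι ≤ c) (h2 : ∀ i, #(f i) ≤ c) : #(⋃ i, f i : Set V) ≤ c := by
  calc #(⋃ i, f i : Set V) ≤ Cardinal.sum (fun i => #(f i)) := Cardinal.mk_iUnion_le_sum_mk
    _ ≤ Cardinal.sum (fun _ : ι => c) := Cardinal.sum_le_sum _ _ h2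
    _ = #ι * c := by simp
    _ ≤ c * c := mul_le_mul_left h1 c
    _ = c := Cardinal.mul_eq_self hc

section

variable (G : Type u) [CommGroup G] [MulAction G V]

/-- the orbit of `x` under the pointwise stabilizer of `A` -/
def orbF (A : Set V) (x : V) : Set V := {y | ∃ g : G, (∀ a ∈ A, g • a = a) ∧ g • x = y}

variable {G}

lemma orbF_mono {A B : Set V} (h : A ⊆ B) (x : V) : orbF G B x ⊆ orbF G A x := by
  rintro y ⟨g, hg, rfl⟩
  exact ⟨g, fun a ha => hg a (h ha), rfl⟩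

lemma self_mem_orbF (A : Set V) (x : V) : x ∈ orbF G A x := ⟨1, by simp, by simp⟩

lemma mk_orbF_mono {A B : Set V} (h : A ⊆ B) (x : V) : #(orbF G B x) ≤ #(orbF G A x) :=
  Cardinal.mk_le_mk_of_subset (orbF_mono h x)

lemma mk_orbF_fixed {A : Set V} {x : V} (hx : x ∈ A) : #(orbF G A x) ≤ 1 := by
  rw [Cardinal.mk_le_one_iff_set_subsingleton]
  rintro _ ⟨g, hg, rfl⟩ _ ⟨g', hg', rfl⟩
  rw [hg x hx, hg' x hx]

lemma orbF_smul (A : Set V) (v : G) (x : V) : orbF G A (v • x) = (fun y => v • y) '' orbF G A x := by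
  ext y
  constructor
  · rintro ⟨g, hg, rfl⟩
    refine ⟨g • x, ⟨g, hg, rfl⟩, ?_⟩
    show v • g • x = g • v • x
    rw [smul_smul, smul_smul, mul_comm]
  · rintro ⟨_, ⟨g, hg, rfl⟩, rfl⟩
    refine ⟨g, hg, ?_⟩
    show g • v • x = v • g • x
    rw [smul_smul, smul_smul, mul_comm]

lemma mk_orbF_smul (A : Set V) (v : G) (x : V) : #(orbF G A (v • x)) ≤ #(orbF G A x) := by
  rw [orbF_smul]
  exact Cardinal.mk_image_le

/-- orbit-stabilizer type bound -/
lemma mk_orbF_le (A S : Set V) (y : V) (c m : Cardinal.{u}) (hc : 1 ≤ c) (hm : #S ≤ m)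
    (hS : ∀ s ∈ S, #(orbF G A s) ≤ c) :
    #(orbF G A y) ≤ c ^ m * #(orbF G (A ∪ S) y) := by
  classical
  let T := ∀ s : S, orbF G A (s : V)
  have hT : #T ≤ c ^ m := by
    have h1 : #T = Cardinal.prod (fun s : S => #(orbF G A (s : V))) := by
      rw [← Cardinal.mk_pi]
    rw [h1]
    calc Cardinal.prod (fun s : S => #(orbF G A (s : V)))
        ≤ Cardinal.prod (fun _ : S => c) := Cardinal.prod_le_prod _ _ (fun s => hS s s.2)
      _ = c ^ #S := by simp
      _ ≤ c ^ m := Cardinal.power_le_power_left (by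
          intro h0; rw [h0] at hc; simp at hc) hm
  -- choice of group elements
  have hch : ∀ z : orbF G A y, ∃ g : G, (∀ a ∈ A, g • a = a) ∧ g • y = z := fun z => z.2
  choose gg hgg1 hgg2 using hch
  let t : orbF G A y → T := fun z s => ⟨gg z • (s : V), ⟨gg z, hgg1 z, rfl⟩⟩
  let r : T → G := fun tt =>
    if h : ∃ g : G, (∀ a ∈ A, g • a = a) ∧ ∀ s : S, g • (s : V) = tt s then h.choose else 1
  have hr : ∀ z : orbF G A y, (∀ a ∈ A, r (t z) • a = a) ∧ ∀ s : S, r (t z) • (s : V) = gg z • (s : V) := by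
    intro z
    have hex : ∃ g : G, (∀ a ∈ A, g • a = a) ∧ ∀ s : S, g • (s : V) = t z s :=
      ⟨gg z, hgg1 z, fun s => rfl⟩
    have h2 : r (t z) = hex.choose := dif_pos hex
    rw [h2]
    exact hex.choose_spec
  have hmem : ∀ z : orbF G A y, (r (t z))⁻¹ • (z : V) ∈ orbF G (A ∪ S) y := by
    intro z
    refine ⟨(r (t z))⁻¹ * gg z, ?_, ?_⟩
    · intro a ha
      rw [mul_smul, inv_smul_eq_iff]
      rcases ha with ha | ha
      · rw [hgg1 z a ha, (hr z).1 a ha]
      · exact ((hr z).2 ⟨a, ha⟩).symm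
    · rw [mul_smul, hgg2]
  let F : orbF G A y → T × orbF G (A ∪ S) y := fun z => (t z, ⟨_, hmem z⟩)
  have hF : Function.Injective F := by
    intro z z' hzz
    have h1 : t z = t z' := congrArg Prod.fst hzz
    have h2 : (r (t z))⁻¹ • (z : V) = (r (t z'))⁻¹ • (z' : V) :=
      congrArg Subtype.val (congrArg Prod.snd hzz)
    rw [h1] at h2
    exact Subtype.ext (MulAction.injective _ h2)
  calc #(orbF G A y) ≤ #(T × orbF G (A ∪ S) y) := Cardinal.mk_le_of_injective hF
    _ = #T * #(orbF G (A ∪ S) y) := by simp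
    _ ≤ c ^ m * #(orbF G (A ∪ S) y) := mul_le_mul_left hT _

/-- Neumann-type covering lemma. -/
lemma avoid {μ : Cardinal.{u}} (hμ : ℵ₀ ≤ μ) (A : Set V) (P : Finset V) :
    ∀ T : Set V, #T ≤ μ → (∀ x ∈ P, μ < #(orbF G A x)) →
      ∃ w : G, (∀ a ∈ A, w • a = a) ∧ ∀ x ∈ P, w • x ∉ T := by
  classical
  induction P using Finset.induction_on with
  | empty => intro T _ _; exact ⟨1, by simp, by simp⟩
  | @insert x P' _ ih =>
    intro T hT hP
    by_contra hcon
    push Not at hcon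
    have hx : μ < #(orbF G A x) := hP x (by simp)
    have h1 : ¬ (orbF G A x ⊆ T) := by
      intro hsub
      exact absurd ((Cardinal.mk_le_mk_of_subset hsub).trans hT) (not_le.mpr hx)
    rw [Set.not_subset] at h1
    obtain ⟨_, ⟨w1, hw1A, rfl⟩, hw1T⟩ := h1
    let g : V → G := fun t => if h : ∃ g : G, (∀ a ∈ A, g • a = a) ∧ g • x = t then h.choose else 1
    let T' : Set V := T ∪ ⋃ t : T, (fun y => (g t * w1⁻¹) • y) '' T
    have hT' : #T' ≤ μ := by
      have h2 : #(⋃ t : T, (fun y => (g t * w1⁻¹) • y) '' T : Set V) ≤ μ :=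
        mk_iUnion_le_c hμ hT (fun t => Cardinal.mk_image_le.trans hT)
      calc #T' ≤ #T + #(⋃ t : T, (fun y => (g t * w1⁻¹) • y) '' T : Set V) :=
            Cardinal.mk_union_le _ _
        _ ≤ μ + μ := add_le_add hT h2
        _ = μ := Cardinal.add_eq_self hμ
    obtain ⟨w, hwA, hw⟩ := ih T' hT' (fun z hz => hP z (by simp [hz]))
    obtain ⟨z, hz, hzT⟩ := hcon w hwA
    have hzx : z = x := by
      rcases Finset.mem_insert.mp hz with h | h
      · exact h
      · exact absurd (Or.inl hzT) (hw z h)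
    subst hzx
    have hex : ∃ g : G, (∀ a ∈ A, g • a = a) ∧ g • z = w • z := ⟨w, hwA, rfl⟩
    have hgeq : g (w • z) = hex.choose := dif_pos hex
    have hgA : ∀ a ∈ A, g (w • z) • a = a := by rw [hgeq]; exact hex.choose_spec.1
    have hgz : g (w • z) • z = w • z := by rw [hgeq]; exact hex.choose_spec.2
    have hinv : ∀ (k : G) (a : V), k • a = a → k⁻¹ • a = a := by
      intro k a hk
      rw [inv_smul_eq_iff, hk]
    let w2 : G := w1 * ((g (w • z))⁻¹ * w)
    have hw2A : ∀ a ∈ A, w2 • a = a := by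
      intro a ha
      show (w1 * ((g (w • z))⁻¹ * w)) • a = a
      rw [mul_smul, mul_smul, hwA a ha, hinv _ _ (hgA a ha), hw1A a ha]
    obtain ⟨z', hz', hz'T⟩ := hcon w2 hw2A
    have hw2z : w2 • z = w1 • z := by
      show (w1 * ((g (w • z))⁻¹ * w)) • z = w1 • z
      rw [mul_smul, mul_smul]
      congr 1
      rw [inv_smul_eq_iff, hgz]
    rcases Finset.mem_insert.mp hz' with h | h
    · subst h
      rw [hw2z] at hz'T
      exact hw1T hz'T
    · apply hw z' h
      right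
      rw [Set.mem_iUnion]
      refine ⟨⟨w • z, hzT⟩, w2 • z', hz'T, ?_⟩
      show (g (w • z) * w1⁻¹) • w2 • z' = w • z'
      show (g (w • z) * w1⁻¹) • (w1 * ((g (w • z))⁻¹ * w)) • z' = w • z'
      rw [smul_smul]
      congr 1
      group

end

end Pool.Agent.Lib_helper79.EU
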