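import Mathlib

set_option autoImplicit false

universe u

namespace Pool.Agent.Lib_helper79.EU

open Finsupp

lemma decomp (x : ℕ → ℤ) (k : ℕ) (d : ℤ) (hd : ∀ n, k ≤ n → d ∣ x n) :
    ∃ y : ℕ → ℤ, x = (∑ n ∈ Finset.range k, x n • (Pi.single n 1 : ℕ → ℤ)) + d • y := by
  classical
  refine ⟨fun n => if k ≤ n then x n / d else 0, ?_⟩
  funext m
  rw [Pi.add_apply, Finset.sum_apply]
  by_cases hm : k ≤ m
  · have h1 : ∑ c ∈ Finset.range k, (x c • (Pi.single c 1 : ℕ → ℤ)) m = 0 := by
      apply Finset.sum_eq_zero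
      intro c hc
      have : m ≠ c := by
        have := Finset.mem_range.mp hc
        omega
      simp [this]
    rw [h1]
    simp only [Pi.smul_apply, smul_eq_mul, if_pos hm, zero_add]
    exact (Int.mul_ediv_cancel' (hd m hm)).symm
  · have h1 : ∑ c ∈ Finset.range k, (x c • (Pi.single c 1 : ℕ → ℤ)) m = x m := by
      rw [Finset.sum_eq_single m]
      · simp
      · intro c _ hcm
        simp [Ne.symm hcm]
      · intro h
        exact absurd (Finset.mem_range.mpr (not_le.mp hm)) h
    rw [h1]
    simp [hm]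

/-- the free abelian group is slender (weak form) -/
theorem slender {I : Type u} (φ : (ℕ → ℤ) →+ (I →₀ ℤ)) : ¬ ∀ n : ℕ, φ (Pi.single n 1) ≠ 0 := by
  classical
  intro hne
  have hex : ∀ n : ℕ, ∃ i : I, φ (Pi.single n 1) i ≠ 0 := by
    intro n
    by_contra hcon
    push Not at hcon
    exact hne n (Finsupp.ext hcon)
  choose i hi using hex
  let q : ℕ → ℤ := fun n => |φ (Pi.single n 1) (i n)| + 1
  have hq2 : ∀ n, 2 ≤ q n := by
    intro n
    have : 1 ≤ |φ (Pi.single n 1) (i n)| := Int.one_le_abs (hi n)
    show 2 ≤ |φ (Pi.single n 1) (i n)| + 1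
    linarith
  have hqnd : ∀ n, ¬ q n ∣ φ (Pi.single n 1) (i n) := by
    intro n hdvd
    have h1 := Int.le_of_dvd (abs_pos.mpr (hi n)) ((dvd_abs _ _).mpr hdvd)
    have h2 : q n = |φ (Pi.single n 1) (i n)| + 1 := rfl
    linarith
  let a : ℕ → ℤ := fun n => ∏ k ∈ Finset.range n, q k
  have ha_succ : ∀ n, a (n + 1) = a n * q n := fun n => Finset.prod_range_succ q n
  have ha_pos : ∀ n, 0 < a n := fun n => Finset.prod_pos (fun k _ => by linarith [hq2 k])
  have ha_dvd : ∀ m n, m ≤ n → a m ∣ a n := by
    intro m n hmn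
    induction n, hmn using Nat.le_induction with
    | base => exact dvd_rfl
    | succ n _ ih => rw [ha_succ]; exact ih.mul_right _
  have ha_big : ∀ n : ℕ, (n : ℤ) < a n := by
    intro n
    induction n with
    | zero => exact ha_pos 0
    | succ n ih =>
      rw [ha_succ]
      push_cast
      have h1 := hq2 n
      have h2 := ha_pos n
      nlinarith
  let xx : Set ℕ → ℕ → ℤ := fun s n => if n ∈ s then a n else 0
  let J : Set I := ⋃ n : ℕ, ((φ (Pi.single n 1)).support : Set I)
  have hJ : J.Countable := Set.countable_iUnion (fun n => (Finset.countable_toSet _))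
  have hsupp : ∀ s : Set ℕ, ∀ j, j ∉ J → φ (xx s) j = 0 := by
    intro s j hj
    have hz : ∀ n, φ (Pi.single n 1) j = 0 := by
      intro n
      by_contra h
      exact hj (Set.mem_iUnion.mpr ⟨n, by simpa using h⟩)
    have hdiv : ∀ k, a k ∣ φ (xx s) j := by
      intro k
      obtain ⟨y, hy⟩ := decomp (xx s) k (a k) (by
        intro n hn
        by_cases hns : n ∈ s
        · simp only [xx, hns, if_true]; exact ha_dvd k n hn
        · simp only [xx, hns, if_false]; exact dvd_zero _)
      have h1 : φ (xx s) = (∑ n ∈ Finset.range k, xx s n • φ (Pi.single n 1)) + a k • φ y := by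
        conv_lhs => rw [hy]
        rw [map_add, map_sum]
        simp only [map_zsmul]
      rw [h1]
      simp [hz]
    by_contra hne0
    have h1 := Int.le_of_dvd (abs_pos.mpr hne0) ((dvd_abs _ _).mpr (hdiv (φ (xx s) j).natAbs))
    have h2 := ha_big (φ (xx s) j).natAbs
    rw [Int.abs_eq_natAbs] at h1
    linarith
  -- uncountably many `s` but countably many values
  have hinj : ¬ Function.Injective (fun s : Set ℕ => φ (xx s)) := by
    intro hinj
    have hcJ : Countable J := hJ.to_subtype
    have hcJ' : Countable (J →₀ ℤ) := inferInstance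
    let r : Set ℕ → (J →₀ ℤ) := fun s => Finsupp.comapDomain (fun j : J => (j : I)) (φ (xx s))
      (Subtype.val_injective.injOn)
    have hr : Function.Injective r := by
      intro s t hst
      apply hinj
      show φ (xx s) = φ (xx t)
      ext j
      by_cases hj : j ∈ J
      · have h1 : r s ⟨j, hj⟩ = r t ⟨j, hj⟩ := by rw [hst]
        simpa [r, Finsupp.comapDomain_apply] using h1
      · rw [hsupp s j hj, hsupp t j hj]
    have hc : Countable (Set ℕ) := hr.countable
    have h1 : Cardinal.mk (Set ℕ) ≤ Cardinal.aleph0 := Cardinal.mk_le_aleph0_iff.mpr hc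
    rw [Cardinal.mk_set, Cardinal.mk_nat] at h1
    exact absurd h1 (not_le.mpr (Cardinal.cantor _))
  rw [Function.not_injective_iff] at hinj
  obtain ⟨s, t, hst, hne'⟩ := hinj
  have hst' : φ (xx s) = φ (xx t) := hst
  have hdiff : ∃ n, ¬ (n ∈ s ↔ n ∈ t) := by
    by_contra hcon
    push Not at hcon
    exact hne' (Set.ext hcon)
  let n := Nat.find hdiff
  have hn : ¬ (n ∈ s ↔ n ∈ t) := Nat.find_spec hdiff
  have hmin : ∀ m, m < n → (m ∈ s ↔ m ∈ t) := fun m hm => by
    have := Nat.find_min hdiff hm
    push Not at this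
    exact this
  -- consider the difference
  let z : ℕ → ℤ := xx s - xx t
  have hz0 : φ z = 0 := by
    show φ (xx s - xx t) = 0
    rw [map_sub, hst', sub_self]
  obtain ⟨y, hy⟩ := decomp z (n + 1) (a (n + 1)) (by
    intro m hm
    show a (n + 1) ∣ xx s m - xx t m
    apply dvd_sub
    · by_cases hms : m ∈ s
      · simp only [xx, hms, if_true]; exact ha_dvd _ _ hm
      · simp only [xx, hms, if_false]; exact dvd_zero _
    · by_cases hms : m ∈ t
      · simp only [xx, hms, if_true]; exact ha_dvd _ _ hm
      · simp only [xx, hms, if_false]; exact dvd_zero _)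
  have h1 : φ z = (∑ m ∈ Finset.range (n + 1), z m • φ (Pi.single m 1)) + a (n + 1) • φ y := by
    conv_lhs => rw [hy]
    rw [map_add, map_sum]
    simp only [map_zsmul]
  have hzm : ∀ m, m < n → z m = 0 := by
    intro m hm
    show xx s m - xx t m = 0
    have := hmin m hm
    by_cases hms : m ∈ s
    · have hmt : m ∈ t := this.mp hms
      simp [xx, hms, hmt]
    · have hmt : m ∉ t := fun h => hms (this.mpr h)
      simp [xx, hms, hmt]
  have hzn : z n = a n ∨ z n = - a n := by
    show xx s n - xx t n = a n ∨ xx s n - xx t n = - a n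
    by_cases hns : n ∈ s
    · have hnt : n ∉ t := fun h => hn ⟨fun _ => h, fun _ => hns⟩
      left; simp [xx, hns, hnt]
    · have hnt : n ∈ t := by
        by_contra h
        exact hn ⟨fun h' => absurd h' hns, fun h' => absurd h' h⟩
      right; simp [xx, hns, hnt]
  rw [Finset.sum_range_succ, Finset.sum_eq_zero (fun m hm => by
    rw [hzm m (Finset.mem_range.mp hm), zero_smul]), zero_add, hz0] at h1
  have h2 : (0 : ℤ) = z n * φ (Pi.single n 1) (i n) + a (n + 1) * φ y (i n) := by
    have := congrArg (fun f => f (i n)) h1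
    simpa using this
  rw [ha_succ] at h2
  apply hqnd n
  have hapos := ha_pos n
  rcases hzn with h | h
  · rw [h] at h2
    refine ⟨- φ y (i n), ?_⟩
    have h3 : a n * (φ (Pi.single n 1) (i n) + q n * φ y (i n)) = 0 := by linarith
    have h4 := (mul_eq_zero.mp h3).resolve_left hapos.ne'
    linarith
  · rw [h] at h2
    refine ⟨φ y (i n), ?_⟩
    have h3 : a n * (- φ (Pi.single n 1) (i n) + q n * φ y (i n)) = 0 := by linarith
    have h4 := (mul_eq_zero.mp h3).resolve_left hapos.ne'
    linarith

end Pool.Agent.Lib_helper79.EU
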